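import Pool.Agent.Y602.TD.Comp
import Pool.Agent.Helper448.PFinal

set_option autoImplicit false

/-!
Toroidal graphs are not transducible from apex graphs.
-/

namespace Pool.Agent.Y602.TD

open FirstOrder FirstOrder.Language Pool.Agent.Helper448.TDefs Pool.Agent.Helper448.PDefs

/-- The class of the graphs that become planar when all edges at some set of at most `k` vertices
are deleted (the `k`-apex graphs; the vertices of the set remain as isolated vertices). -/
def ApexGraphs (k : ℕ) : GraphClass := fun V _ G =>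
  ∃ S : Finset V, S.card ≤ k ∧ Planar (G.deleteEdges {e | ∃ v ∈ S, v ∈ e})

/-- The class of the toroidal graphs of maximum degree at most three. -/
def SubcubicToroidalGraphs : GraphClass := fun V _ G =>
  Toroidal G ∧ ∀ v : V, (G.neighborSet v).encard ≤ 3

/-- The formula which adds the edges at the deleted vertices. -/
noncomputable def apexF (k : ℕ) : (LG (k + k)).Formula (Fin 2) :=
  (Language.Relations.formula₂ (L := LG (k + k)) (ColRel.adj : ColRel (k + k) 2)
    (.var 0) (.var 1)) ⊔
  Formula.iSup (fun i : Fin k =>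
    (Language.Relations.formula₁ (L := LG (k + k)) (ColRel.col (Fin.castAdd k i)) (.var 0)) ⊓
    (Language.Relations.formula₁ (L := LG (k + k)) (ColRel.col (Fin.natAdd k i)) (.var 1)))

lemma holds_apexF {k : ℕ} {V : Type} (G : SimpleGraph V) (A N : Fin k → Set V) (u v : V) :
    Holds G (Fin.addCases A N : Fin (k + k) → Set V) (apexF k) u v ↔
      (G.Adj u v ∨ ∃ i, u ∈ A i ∧ v ∈ N i) := by
  unfold Holds apexF
  letI := colStr G (Fin.addCases A N : Fin (k + k) → Set V)
  rw [Formula.realize_sup, Language.Formula.realize_rel₂, Formula.realize_iSup]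
  refine or_congr Iff.rfl (exists_congr fun i => ?_)
  rw [Formula.realize_inf, Language.Formula.realize_rel₁, Language.Formula.realize_rel₁]
  refine and_congr ?_ ?_
  · have e : (Fin.addCases A N (Fin.castAdd k i) : Set V) = A i := Fin.addCases_left i
    exact iff_of_eq (congrArg (fun T : Set V => u ∈ T) e)
  · have e : (Fin.addCases A N (Fin.natAdd k i) : Set V) = N i := Fin.addCases_right i
    exact iff_of_eq (congrArg (fun T : Set V => v ∈ T) e)

/-- The apex graphs are transducible from the planar graphs. -/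
theorem apex_transducible (k : ℕ) : Transducible (ApexGraphs k) PlanarGraphs := by
  refine ⟨k + k, apexF k, fun V hV G hG => ?_⟩
  obtain ⟨S, hS, hP⟩ := hG
  let G' : SimpleGraph V := G.deleteEdges {e | ∃ v ∈ S, v ∈ e}
  let A : Fin k → Set V := fun i => {x | ∃ h : x ∈ S, (S.equivFin ⟨x, h⟩ : ℕ) = i}
  let N : Fin k → Set V := fun i => {y | ∃ x ∈ A i, G.Adj x y}
  have hA : ∀ i x y, x ∈ A i → y ∈ A i → x = y := by
    rintro i x y ⟨h1, e1⟩ ⟨h2, e2⟩
    have : S.equivFin ⟨x, h1⟩ = S.equivFin ⟨y, h2⟩ := Fin.ext (e1.trans e2.symm)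
    exact congrArg Subtype.val (S.equivFin.injective this)
  have hAS : ∀ x ∈ S, ∃ i, x ∈ A i := by
    intro x hx
    exact ⟨⟨S.equivFin ⟨x, hx⟩, lt_of_lt_of_le (S.equivFin ⟨x, hx⟩).2 hS⟩, hx, rfl⟩
  have hG' : ∀ u v, G'.Adj u v → G.Adj u v := by
    intro u v h
    exact (SimpleGraph.deleteEdges_adj.1 h).1
  have hcase : ∀ u v, (G'.Adj u v ∨ ∃ i, u ∈ A i ∧ v ∈ N i) → G.Adj u v := by
    rintro u v (h | ⟨i, hu, x, hx, hxv⟩)
    · exact hG' u v h
    · rw [hA i u x hu hx]
      exact hxv
  refine ⟨V, hV, G', hP, (Fin.addCases A N : Fin (k + k) → Set V),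
    ⟨⟨Function.Embedding.refl V, ?_⟩⟩⟩
  intro u v
  show (u ≠ v ∧ (Holds G' _ (apexF k) u v ∨ Holds G' _ (apexF k) v u)) ↔ G.Adj u v
  rw [holds_apexF, holds_apexF]
  constructor
  · rintro ⟨-, h | h⟩
    · exact hcase u v h
    · exact (hcase v u h).symm
  · intro h
    refine ⟨h.ne, ?_⟩
    by_cases hu : u ∈ S
    · obtain ⟨i, hi⟩ := hAS u hu
      exact Or.inl (Or.inr ⟨i, hi, u, hi, h⟩)
    · by_cases hv : v ∈ S
      · obtain ⟨i, hi⟩ := hAS v hv
        exact Or.inr (Or.inr ⟨i, hi, v, hi, h.symm⟩)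
      · refine Or.inl (Or.inl (SimpleGraph.deleteEdges_adj.2 ⟨h, ?_⟩))
        rintro ⟨w, hw, hwe⟩
        rcases Sym2.mem_iff.1 hwe with rfl | rfl
        · exact hu hw
        · exact hv hw

/-- The toroidal graphs of maximum degree at most three are not transducible from any class that
is transducible from the class of the planar graphs. -/
theorem not_from {𝒟 : GraphClass} (h : Transducible 𝒟 PlanarGraphs) :
    ¬ Transducible SubcubicToroidalGraphs 𝒟 := by
  intro h2
  obtain ⟨c, ψ, h3⟩ := trans h2 h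
  obtain ⟨W', hW, H, hT, hdeg, hno⟩ := Pool.Agent.Helper448.PFinal.explicit c ψ
  obtain ⟨V, hV, Γ, hΓ, C, hφ⟩ := h3 W' H ⟨hT, hdeg⟩
  exact hno V Γ hΓ C hφ

end Pool.Agent.Y602.TD
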