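import Pool.Agent.Helper448.PDefs

set_option autoImplicit false

/-!
First-order transductions compose.
-/

namespace Pool.Agent.Y602.TD

open FirstOrder FirstOrder.Language Pool.Agent.Helper448.TDefs Pool.Agent.Helper448.PDefs

/-- The variable of a term. -/
def vr {c : ℕ} {β : Type} : (LG c).Term β → β
  | .var x => x
  | .func f _ => Empty.elim f

lemma realize_vr {c : ℕ} {β V : Type} [(LG c).Structure V] (t : (LG c).Term β) (s : β → V) :
    t.realize s = s (vr t) := by
  cases t with
  | var x => rfl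
  | func f _ => exact Empty.elim f

section

variable {c d : ℕ} (A : (LG d).Formula (Fin 2)) (D : (LG d).Formula (Fin 1)) (K : Fin c → Fin d)

/-- The translation of an atomic formula. -/
def relT {α : Type} {n l : ℕ} (R : ColRel c l) (xs : Fin l → α ⊕ Fin n) :
    (LG d).BoundedFormula α n :=
  match l, R, xs with
  | _, .adj, xs => BoundedFormula.relabel (k := 0) (fun i : Fin 2 => xs i) A
  | _, .col i, xs => BoundedFormula.rel (L := LG d) (l := 1) (ColRel.col (K i) : ColRel d 1)
      (fun _ => Term.var (xs 0))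

/-- The translation of a formula: adjacency is replaced by `A`, the colour `i` by the colour
`K i`, and the quantifiers are restricted to `D`. -/
def tr {α : Type} : {n : ℕ} → (LG c).BoundedFormula α n → (LG d).BoundedFormula α n
  | _, .falsum => .falsum
  | _, .equal t₁ t₂ => .equal (.var (vr t₁)) (.var (vr t₂))
  | _, .rel R ts => relT A K R (fun i => vr (ts i))
  | _, .imp a b => .imp (tr a) (tr b)
  | n, .all a => .all (.imp (BoundedFormula.relabel (k := 0)
      (fun _ : Fin 1 => (Sum.inr (Fin.last n) : α ⊕ Fin (n + 1))) D) (tr a))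

variable {A D K}

theorem realize_tr {V V' : Type} (G : SimpleGraph V) (C : Fin c → Set V) (G' : SimpleGraph V')
    (C' : Fin d → Set V') (f : V → V') (hf : Function.Injective f)
    (hA : ∀ u v, @Language.Formula.Realize (LG d) V' (colStr G' C') (Fin 2) A ![f u, f v] ↔
      G.Adj u v)
    (hD : ∀ y, @Language.Formula.Realize (LG d) V' (colStr G' C') (Fin 1) D (fun _ => y) ↔
      y ∈ Set.range f)
    (hK : ∀ i u, f u ∈ C' (K i) ↔ u ∈ C i) {α : Type} {n : ℕ}
    (φ : (LG c).BoundedFormula α n) (v : α → V) (xs : Fin n → V) :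
    @BoundedFormula.Realize (LG d) V' (colStr G' C') α n (tr A D K φ) (f ∘ v) (f ∘ xs) ↔
      @BoundedFormula.Realize (LG c) V (colStr G C) α n φ v xs := by
  letI := colStr G' C'
  letI := colStr G C
  induction φ with
  | falsum => exact Iff.rfl
  | equal t₁ t₂ =>
    show Sum.elim (f ∘ v) (f ∘ xs) (vr t₁) = Sum.elim (f ∘ v) (f ∘ xs) (vr t₂) ↔
      t₁.realize (Sum.elim v xs) = t₂.realize (Sum.elim v xs)
    rw [realize_vr, realize_vr, ← Sum.comp_elim, Function.comp_apply, Function.comp_apply,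
      hf.eq_iff]
  | @rel n l R ts =>
    cases R with
    | adj =>
      show (BoundedFormula.relabel (k := 0) (fun i : Fin 2 => vr (ts i)) A).Realize (f ∘ v)
        (f ∘ xs) ↔ G.Adj ((ts 0).realize (Sum.elim v xs)) ((ts 1).realize (Sum.elim v xs))
      rw [realize_vr, realize_vr, ← hA]
      refine BoundedFormula.realize_relabel.trans ?_
      show _ ↔ BoundedFormula.Realize A _ _
      have e1 : (Sum.elim (f ∘ v) ((f ∘ xs) ∘ Fin.castAdd 0) ∘ fun i : Fin 2 => vr (ts i)) =
          ![f (Sum.elim v xs (vr (ts 0))), f (Sum.elim v xs (vr (ts 1)))] := by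
        have e2 : Sum.elim (f ∘ v) ((f ∘ xs) ∘ Fin.castAdd 0) = f ∘ Sum.elim v xs := by
          rw [Sum.comp_elim]; rfl
        rw [e2]
        funext i
        fin_cases i <;> rfl
      rw [e1]
      exact iff_of_eq (congrArg _ (Subsingleton.elim _ _))
    | col i =>
      show Sum.elim (f ∘ v) (f ∘ xs) (vr (ts 0)) ∈ C' (K i) ↔
        (ts 0).realize (Sum.elim v xs) ∈ C i
      rw [realize_vr, ← Sum.comp_elim, Function.comp_apply, hK]
  | imp a b iha ihb =>
    exact imp_congr (iha xs) (ihb xs)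
  | @all n a ih =>
    show (∀ y : V', (BoundedFormula.relabel (k := 0)
      (fun _ : Fin 1 => (Sum.inr (Fin.last n) : _ ⊕ Fin (n + 1))) D).Realize (f ∘ v)
        (Fin.snoc (f ∘ xs) y) → (tr A D K a).Realize (f ∘ v) (Fin.snoc (f ∘ xs) y)) ↔
      ∀ x : V, a.Realize v (Fin.snoc xs x)
    have hdom : ∀ y : V', (BoundedFormula.relabel (k := 0)
        (fun _ : Fin 1 => (Sum.inr (Fin.last n) : _ ⊕ Fin (n + 1))) D).Realize (f ∘ v)
        (Fin.snoc (f ∘ xs) y) ↔ y ∈ Set.range f := by
      intro y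
      rw [← hD]
      refine BoundedFormula.realize_relabel.trans ?_
      show _ ↔ BoundedFormula.Realize D _ _
      have e1 : (Sum.elim (f ∘ v) (Fin.snoc (f ∘ xs) y ∘ Fin.castAdd 0) ∘
          fun _ : Fin 1 => (Sum.inr (Fin.last n) : _ ⊕ Fin (n + 1))) = fun _ => y := by
        funext i
        show Fin.snoc (α := fun _ => V') (f ∘ xs) y (Fin.last n) = y
        exact Fin.snoc_last _ _
      rw [e1]
      exact iff_of_eq (congrArg _ (Subsingleton.elim _ _))
    have hsn : ∀ x : V, (Fin.snoc (f ∘ xs) (f x) : Fin (n + 1) → V') = f ∘ Fin.snoc xs x := by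
      intro x
      exact (Fin.comp_snoc f xs x).symm
    constructor
    · intro h x
      refine (ih (Fin.snoc xs x)).1 ?_
      rw [← hsn]
      exact h (f x) ((hdom _).2 ⟨x, rfl⟩)
    · intro h y hy
      obtain ⟨x, rfl⟩ := (hdom y).1 hy
      rw [hsn]
      exact (ih (Fin.snoc xs x)).2 (h x)

end

/-- Adjacency in the graph defined by `ψ`. -/
def adjOf {c : ℕ} (ψ : (LG c).Formula (Fin 2)) : (LG c).Formula (Fin 2) :=
  (∼ ((Term.var (Sum.inl 0) : (LG c).Term (Fin 2 ⊕ Fin 0)) =' Term.var (Sum.inl 1))) ⊓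
    (ψ ⊔ Formula.relabel ![1, 0] ψ)

lemma realize_adjOf {c : ℕ} (ψ : (LG c).Formula (Fin 2)) {V : Type} (G : SimpleGraph V)
    (C : Fin c → Set V) (u v : V) :
    @Language.Formula.Realize (LG c) V (colStr G C) (Fin 2) (adjOf ψ) ![u, v] ↔
      (interp G C ψ).Adj u v := by
  letI := colStr G C
  show _ ↔ u ≠ v ∧ (Holds G C ψ u v ∨ Holds G C ψ v u)
  unfold adjOf
  rw [Formula.realize_inf]
  refine and_congr ?_ ?_
  · rw [Formula.Realize, BoundedFormula.realize_not]
    exact Iff.rfl
  · rw [Formula.realize_sup, Formula.realize_relabel]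
    have e : (![u, v] ∘ ![1, 0] : Fin 2 → V) = ![v, u] := by
      funext i
      fin_cases i <;> rfl
    rw [e]
    exact Iff.rfl

/-- The lift of a formula to a language with more colours. -/
def lift {c d : ℕ} (K : Fin c → Fin d) (ψ : (LG c).Formula (Fin 2)) : (LG d).Formula (Fin 2) :=
  tr (Language.Relations.formula₂ (L := LG d) (ColRel.adj : ColRel d 2) (.var 0) (.var 1)) ⊤ K ψ

lemma realize_lift {c d : ℕ} (K : Fin c → Fin d) (ψ : (LG c).Formula (Fin 2)) {V : Type}
    (G : SimpleGraph V) (C : Fin c → Set V) (C' : Fin d → Set V) (h : ∀ i, C' (K i) = C i)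
    (u v : V) : Holds G C' (lift K ψ) u v ↔ Holds G C ψ u v := by
  letI := colStr G C
  letI := colStr G C'
  have key := realize_tr (A := Language.Relations.formula₂ (L := LG d) (ColRel.adj : ColRel d 2)
    (.var 0) (.var 1)) (D := ⊤) (K := K) G C G C' id Function.injective_id
    (fun u v => by
      rw [Language.Formula.realize_rel₂]
      exact Iff.rfl) (fun y => by
      rw [Formula.Realize, BoundedFormula.realize_top]
      simp) (fun i u => by rw [h]; exact Iff.rfl) ψ ![u, v] default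
  exact key

/-- Transductions compose. -/
theorem trans {𝒞 𝒟 ℰ : GraphClass} (h1 : Transducible 𝒞 𝒟) (h2 : Transducible 𝒟 ℰ) :
    Transducible 𝒞 ℰ := by
  obtain ⟨c, ψ, h1⟩ := h1
  obtain ⟨d, χ, h2⟩ := h2
  let KC : Fin c → Fin (d + (c + 1)) := fun i => Fin.natAdd d i.castSucc
  let KD : Fin d → Fin (d + (c + 1)) := Fin.castAdd (c + 1)
  let dm : Fin (d + (c + 1)) := Fin.natAdd d (Fin.last c)
  let DD : (LG (d + (c + 1))).Formula (Fin 1) :=
    Language.Relations.formula₁ (L := LG (d + (c + 1))) (ColRel.col dm : ColRel (d + (c + 1)) 1)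
      (.var 0)
  refine ⟨d + (c + 1), tr (adjOf (lift KD χ)) DD KC ψ, fun W _ H hH => ?_⟩
  obtain ⟨V, hV, G, hG, C, ⟨φ⟩⟩ := h1 W H hH
  obtain ⟨V', hV', G', hG', C', ⟨f⟩⟩ := h2 V G hG
  let C'' : Fin (d + (c + 1)) → Set V' := Fin.addCases C'
    (Fin.lastCases (Set.range f) (fun i => f '' (C i)))
  have e1 : ∀ i, C'' (KD i) = C' i := fun i => Fin.addCases_left _
  have e2 : ∀ i, C'' (KC i) = f '' (C i) := fun i =>
    (Fin.addCases_right _).trans (Fin.lastCases_castSucc _)
  have e3 : C'' dm = Set.range f := (Fin.addCases_right _).trans Fin.lastCases_last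
  have key : ∀ u v, Holds G' C'' (tr (adjOf (lift KD χ)) DD KC ψ) (f u) (f v) ↔
      Holds G C ψ u v := by
    intro u v
    letI := colStr G' C''
    have := realize_tr (A := adjOf (lift KD χ)) (D := DD) (K := KC) G C G' C'' f f.injective
      (fun u v => by
        rw [realize_adjOf, ← f.map_adj_iff]
        show (_ ∧ (Holds G' C'' (lift KD χ) _ _ ∨ Holds G' C'' (lift KD χ) _ _)) ↔
          (_ ∧ (Holds G' C' χ _ _ ∨ Holds G' C' χ _ _))
        rw [realize_lift KD χ G' C' C'' e1, realize_lift KD χ G' C' C'' e1])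
      (fun y => by
        rw [Language.Formula.realize_rel₁, ← e3]
        exact Iff.rfl)
      (fun i u => by
        rw [e2]
        exact f.injective.mem_set_image) ψ ![u, v] default
    have e4 : (f ∘ ![u, v] : Fin 2 → V') = ![f u, f v] := by
      funext i
      fin_cases i <;> rfl
    have e5 : (f ∘ (default : Fin 0 → V) : Fin 0 → V') = default := Subsingleton.elim _ _
    rw [e4, e5] at this
    exact this
  refine ⟨V', hV', G', hG', C'', ⟨⟨⟨fun w => f (φ w), fun a b hab =>
    φ.injective (f.injective hab)⟩, ?_⟩⟩⟩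
  intro a b
  rw [← φ.map_adj_iff]
  show (f (φ a) ≠ f (φ b) ∧ (Holds G' C'' _ (f (φ a)) (f (φ b)) ∨
    Holds G' C'' _ (f (φ b)) (f (φ a)))) ↔ (φ a ≠ φ b ∧ (Holds G C ψ (φ a) (φ b) ∨
    Holds G C ψ (φ b) (φ a)))
  rw [key, key, f.injective.ne_iff]

end Pool.Agent.Y602.TD
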